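import Pool.Agent.Q91.PT.Stm

/-!
# Project PT of helper91: job SGA, the geometry of a surgery site
-/

set_option autoImplicit false

namespace Pool.Agent.Q208.PT.SGA

open Finset Pool.Agent.H976R2 Pool.Agent.H976R2.Lip Pool.Agent.Q91.PT
open scoped Classical

theorem mem_vs (r : ℕ) (w : List Dir) (j i : ℕ) :
    i ∈ vs r w j ↔ i ≤ w.length ∧ inB r (PP w j) (PP w i) := by
  unfold vs
  rw [mem_filter, mem_range, Nat.lt_succ_iff]

theorem ring_of (r : ℕ) (c p q : ℤ × ℤ) (e : Dir) (h : q = p + dv e ∨ p = q + dv e)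
    (hq : inB r c q) (hp : ¬ inB r c p) : ring r (q - c) := by
  obtain ⟨c1, c2⟩ := c
  obtain ⟨p1, p2⟩ := p
  obtain ⟨q1, q2⟩ := q
  unfold inB at hq hp
  unfold ring
  simp only [Int.abs_eq_natAbs, Prod.fst_sub, Prod.snd_sub] at hq hp ⊢
  rcases h with h | h <;> cases e <;>
    simp only [dv, dx, dy, Prod.mk_add_mk, Prod.mk.injEq] at h <;> omega

theorem t : S_sga := by
  intro r m w j hr hw hj
  unfold FS at hj
  rw [mem_filter, mem_range] at hj
  obtain ⟨hjl, hm1, hm2, hloc⟩ := hj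
  have hjv : j ∈ vs r w j := by
    rw [mem_vs]
    refine ⟨by omega, ?_⟩
    unfold inB
    simp
  have hf : fv r w j ∈ vs r w j := Nat.sInf_mem (s := {i : ℕ | i ∈ vs r w j}) ⟨j, hjv⟩
  have hfl : ∀ i ∈ vs r w j, fv r w j ≤ i := fun i hi => Nat.sInf_le hi
  have hl : lv r w j ∈ vs r w j := by
    obtain ⟨i, hi, h⟩ := Finset.exists_mem_eq_sup (vs r w j) ⟨j, hjv⟩ id
    unfold lv
    rw [h]
    exact hi
  have hll : ∀ i ∈ vs r w j, i ≤ lv r w j := fun i hi => Finset.le_sup (f := id) hi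
  have hf1 := hloc _ hf
  have hl1 := hloc _ hl
  have hf2 := (mem_vs r w j _).1 hf
  have hl2 := (mem_vs r w j _).1 hl
  have hfj := hfl j hjv
  have hlj := hll j hjv
  have hf3 : 1 ≤ fv r w j := by omega
  have hl3 : lv r w j + 1 ≤ w.length := by omega
  have hr1 : ring r (PP w (fv r w j) - PP w j) := by
    refine ring_of r _ (PP w (fv r w j - 1)) _ (lt w (fv r w j - 1)) (Or.inl ?_) hf2.2 ?_
    · have h := PP_succ w (fv r w j - 1) (by omega)
      rwa [Nat.sub_add_cancel hf3] at h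
    · intro h
      have := hfl _ ((mem_vs r w j _).2 ⟨by omega, h⟩)
      omega
  have hr2 : ring r (PP w (lv r w j) - PP w j) := by
    refine ring_of r _ (PP w (lv r w j + 1)) _ (lt w (lv r w j)) (Or.inr ?_) hl2.2 ?_
    · exact PP_succ w (lv r w j) (by omega)
    · intro h
      have := hll _ ((mem_vs r w j _).2 ⟨by omega, h⟩)
      omega
  have hz : ¬ ring r (PP w j - PP w j) := by
    unfold ring
    simp
    omega
  have hf4 : fv r w j ≠ j := by
    intro h
    rw [h] at hr1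
    exact hz hr1
  have hl4 : lv r w j ≠ j := by
    intro h
    rw [h] at hr2
    exact hz hr2
  refine ⟨hf3, by omega, by omega, hl3, by omega, by omega, ?_, hr1, hr2, ?_⟩
  · intro i hi h
    have h1 := (mem_vs r w j i).2 ⟨hi, h⟩
    exact ⟨hfl i h1, hll i h1⟩
  · intro h
    have h1 : PP w (fv r w j) = PP w (lv r w j) := sub_left_injective h
    have h2 := PP_inj hw hf2.1 hl2.1 h1
    omega

end Pool.Agent.Q208.PT.SGA
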